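import Mathlib

namespace Pool.Agent.Results.MP_96dc1b_co.Groups

open SimpleGraph Finset

section
variable {V : Type} (G : SimpleGraph V)

/-- treewidth -/
noncomputable def tw : ℕ :=
  sInf {w | ∃ (ι : Type) (_ : Finite ι) (T : SimpleGraph ι) (B : ι → Finset V), T.IsTree ∧
    (∀ u v, G.Adj u v → ∃ i, u ∈ B i ∧ v ∈ B i) ∧
    (∀ v, (T.induce {i | v ∈ B i}).Connected) ∧ ∀ i, (B i).card ≤ w + 1}

/-- the r-dynamic chromatic number -/
noncomputable def chi (r : ℕ) : ℕ :=
  sInf {k | ∃ φ : V → Fin k, (∀ u v, G.Adj u v → φ u ≠ φ v) ∧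
    ∀ v, min r (G.neighborSet v).ncard ≤ (φ '' G.neighborSet v).ncard}
end

abbrev W (t : ℕ) := (Fin t × Fin t) ⊕ (Fin t × Fin (t * t))

def G (t : ℕ) : SimpleGraph (W t) where
  Adj
    | .inl b, .inr x => x.1 = b.1 ∨ x.1 = b.2
    | .inr x, .inl b => x.1 = b.1 ∨ x.1 = b.2
    | _, _ => False
  symm := ⟨by rintro (a | a) (b | b) h <;> exact h⟩
  loopless := ⟨by rintro (a | a) h <;> exact h⟩

lemma tw_le (t : ℕ) : tw (G t) ≤ t * t := by
  let B : Option (Fin t × Fin (t * t)) → Finset (W t) := fun o => univ.disjSum o.toFinset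
  refine Nat.sInf_le ⟨_, inferInstance, starGraph none, B, isTree_starGraph _, ?_, ?_, fun i => ?_⟩
  · rintro (a | a) (b | b) h
    exacts [h.elim, ⟨some b, by simp [B]⟩, ⟨some a, by simp [B]⟩, h.elim]
  · rintro (a | a)
    · rw [show {i | Sum.inl a ∈ B i} = Set.univ by ext; simp [B]]
      exact (induceUnivIso _).connected_iff.mpr (isTree_starGraph _).connected
    · rw [show {i | Sum.inr a ∈ B i} = {some a} by ext; simp [B]]
      simp
  · cases i <;> simp [B]

lemma le_chi (t : ℕ) : t * (t * t) ≤ chi (G t) (2 * (t * t)) := by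
  classical
  refine le_csInf ⟨_, Fintype.equivFin _, fun u v h => (Equiv.injective _).ne h.ne, fun v => by
    rw [Set.ncard_image_of_injective _ (Equiv.injective _)]; exact min_le_right _ _⟩ ?_
  rintro k ⟨φ, -, h⟩
  have : Function.Injective (φ ∘ Sum.inr) := fun x y e => by
    have h1 := h (.inl (x.1, y.1))
    have h2 : ((G t).neighborSet (.inl (x.1, y.1))).ncard ≤ 2 * (t * t) := by
      have : (G t).neighborSet (.inl (x.1, y.1)) ⊆
          ((({x.1, y.1} : Finset _) ×ˢ univ).image Sum.inr : Finset (W t)) := by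
        rintro (b | b) hb
        · exact hb.elim
        · simpa [Prod.ext_iff] using (show b.1 = x.1 ∨ b.1 = y.1 from hb)
      refine (Set.ncard_le_ncard this).trans ?_
      rw [Set.ncard_coe_finset]
      refine card_image_le.trans ?_
      rw [card_product, card_univ, Fintype.card_fin]
      exact Nat.mul_le_mul_right _ card_le_two
    rw [min_eq_right h2] at h1
    exact Sum.inr_injective (Set.injOn_of_ncard_image_eq (h1.antisymm' (Set.ncard_image_le))
      (Set.toFinite _) (Or.inl rfl) (Or.inr rfl) e)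
  simpa using Fintype.card_le_of_injective _ this

/-- The r-dynamic chromatic number is not O(tw + r). -/
theorem result (C : ℝ) : ∃ (V : Type) (_ : Fintype V) (G : SimpleGraph V) (r : ℕ), 1 ≤ r ∧
    C * (tw G + r) < chi G r := by
  obtain ⟨t, ht⟩ := exists_nat_gt (3 * |C|)
  have t0 : 0 < t := by exact_mod_cast (by positivity : (0 : ℝ) ≤ 3 * |C|).trans_lt ht
  refine ⟨W t, inferInstance, G t, 2 * (t * t), by nlinarith, ?_⟩
  have h1 : (tw (G t) : ℝ) ≤ t * t := by exact_mod_cast tw_le t
  have h2 : (t * (t * t) : ℝ) ≤ chi (G t) (2 * (t * t)) := by exact_mod_cast le_chi t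
  have h3 : (0 : ℝ) < t * t := by positivity
  push_cast
  calc C * (tw (G t) + 2 * (t * t)) ≤ |C| * (t * t + 2 * (t * t)) :=
        mul_le_mul (le_abs_self C) (by linarith) (by positivity) (abs_nonneg C)
    _ < t * (t * t) := by nlinarith
    _ ≤ _ := h2

end Pool.Agent.Results.MP_96dc1b_co.Groups
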